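import Mathlib

open Filter Topology

namespace Pool.Agent.R331.PerRec

/-- weighted sum -/
noncomputable def S {k L : ℕ} (b : ZMod k → Fin L → ℝ) (i : ZMod k) (v : Fin L → ℝ) : ℝ :=
  ∑ j, b i j * v j

section basic

variable {k L : ℕ} {b : ZMod k → Fin L → ℝ}

theorem S_pos (hb : ∀ i j, 0 ≤ b i j) (hb' : ∀ i, ∃ j, 0 < b i j) {i : ZMod k} {v : Fin L → ℝ}
    (hv : ∀ j, 0 < v j) : 0 < S b i v := by
  obtain ⟨j, hj⟩ := hb' i
  exact Finset.sum_pos' (fun j _ => mul_nonneg (hb i j) (hv j).le)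
    ⟨j, Finset.mem_univ _, mul_pos hj (hv j)⟩

theorem S_mono (hb : ∀ i j, 0 ≤ b i j) {i : ZMod k} {v w : Fin L → ℝ} {c : ℝ}
    (h : ∀ j, v j ≤ c * w j) : S b i v ≤ c * S b i w := by
  unfold S
  rw [Finset.mul_sum]
  refine Finset.sum_le_sum fun j _ => ?_
  nlinarith [mul_le_mul_of_nonneg_left (h j) (hb i j)]

/-- solutions of the recurrence `x (n+L) = 1 / ∑ b n j x (n+j)` -/
def Sol (b : ZMod k → Fin L → ℝ) (x : ℕ → ℝ) : Prop :=
  (∀ n, 0 < x n) ∧ ∀ n : ℕ, x (n + L) * S b (n : ZMod k) (fun j => x (n + j)) = 1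

/-- positive solutions of period `k` -/
def Cyc (b : ZMod k → Fin L → ℝ) (y : ZMod k → ℝ) : Prop :=
  (∀ i, 0 < y i) ∧ ∀ i : ZMod k, y (i + L) * S b i (fun j => y (i + ((j : ℕ) : ZMod k))) = 1

theorem ratio_bound (hb : ∀ i j, 0 ≤ b i j) (hb' : ∀ i, ∃ j, 0 < b i j) {x z : ℕ → ℝ}
    (hx : Sol b x) (hz : Sol b z) {R : ℝ}
    (h0 : ∀ n, n < L → x n ≤ R * z n ∧ z n ≤ R * x n) :
    ∀ n, x n ≤ R * z n ∧ z n ≤ R * x n := by
  intro n
  induction n using Nat.strong_induction_on with
  | _ n ih =>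
    by_cases hn : n < L
    · exact h0 n hn
    push Not at hn
    obtain ⟨m, rfl⟩ := Nat.exists_eq_add_of_le hn
    rw [add_comm L m]
    have hj : ∀ j : Fin L, x (m + j) ≤ R * z (m + j) ∧ z (m + j) ≤ R * x (m + j) :=
      fun j => ih _ (by have := j.2; omega)
    have sx := S_pos hb hb' (i := (m : ZMod k)) (v := fun j => x (m + j)) (fun j => hx.1 _)
    have sz := S_pos hb hb' (i := (m : ZMod k)) (v := fun j => z (m + j)) (fun j => hz.1 _)
    have h1 : S b (m : ZMod k) (fun j => x (m + j)) ≤ R * S b (m : ZMod k) (fun j => z (m + j)) :=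
      S_mono hb (fun j => (hj j).1)
    have h2 : S b (m : ZMod k) (fun j => z (m + j)) ≤ R * S b (m : ZMod k) (fun j => x (m + j)) :=
      S_mono hb (fun j => (hj j).2)
    have ex := hx.2 m
    have ez := hz.2 m
    have xp := hx.1 (m + L)
    have zp := hz.1 (m + L)
    set sX := S b (m : ZMod k) (fun j => x (m + j))
    set sZ := S b (m : ZMod k) (fun j => z (m + j))
    constructor
    · -- x = 1/sX ≤ R / sZ = R z
      have : x (m + L) * sZ ≤ R := by
        calc x (m + L) * sZ ≤ x (m + L) * (R * sX) := by gcongr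
          _ = R * (x (m + L) * sX) := by ring
          _ = R := by rw [ex, mul_one]
      calc x (m + L) = x (m + L) * (z (m + L) * sZ) := by rw [ez, mul_one]
        _ = z (m + L) * (x (m + L) * sZ) := by ring
        _ ≤ z (m + L) * R := by gcongr
        _ = R * z (m + L) := by ring
    · have : z (m + L) * sX ≤ R := by
        calc z (m + L) * sX ≤ z (m + L) * (R * sZ) := by gcongr
          _ = R * (z (m + L) * sZ) := by ring
          _ = R := by rw [ez, mul_one]
      calc z (m + L) = z (m + L) * (x (m + L) * sX) := by rw [ex, mul_one]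
        _ = x (m + L) * (z (m + L) * sX) := by ring
        _ ≤ x (m + L) * R := by gcongr
        _ = R * x (m + L) := by ring

/-- if one positive solution is bounded, then all are -/
theorem all_bounded (hb : ∀ i j, 0 ≤ b i j) (hb' : ∀ i, ∃ j, 0 < b i j) {x z : ℕ → ℝ}
    (hx : Sol b x) (hz : Sol b z) (hz' : ∃ M, ∀ n, z n ≤ M) : ∃ M, ∀ n, x n ≤ M := by
  obtain ⟨M, hM⟩ := hz'
  have hR : ∃ R : ℝ, ∀ n, n < L → x n ≤ R * z n ∧ z n ≤ R * x n := by
    refine ⟨∑ m ∈ Finset.range L, (x m / z m + z m / x m), fun n hn => ?_⟩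
    have hnn : ∀ m ∈ Finset.range L, 0 ≤ x m / z m + z m / x m := fun m _ =>
      add_nonneg (div_nonneg (hx.1 m).le (hz.1 m).le) (div_nonneg (hz.1 m).le (hx.1 m).le)
    have h1 := Finset.single_le_sum hnn (Finset.mem_range.2 hn)
    have a := div_nonneg (hx.1 n).le (hz.1 n).le
    have c := div_nonneg (hz.1 n).le (hx.1 n).le
    constructor
    · have : x n / z n ≤ ∑ m ∈ Finset.range L, (x m / z m + z m / x m) := by linarith
      calc x n = x n / z n * z n := by rw [div_mul_cancel₀ _ (hz.1 n).ne']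
        _ ≤ _ := mul_le_mul_of_nonneg_right this (hz.1 n).le
    · have : z n / x n ≤ ∑ m ∈ Finset.range L, (x m / z m + z m / x m) := by linarith
      calc z n = z n / x n * x n := by rw [div_mul_cancel₀ _ (hx.1 n).ne']
        _ ≤ _ := mul_le_mul_of_nonneg_right this (hx.1 n).le
  obtain ⟨R, hR⟩ := hR
  refine ⟨|R| * M, fun n => ?_⟩
  have h := (ratio_bound hb hb' hx hz hR n).1
  have h2 : z n ≤ M := hM n
  have h3 : 0 < z n := hz.1 n
  calc x n ≤ R * z n := h
    _ ≤ |R| * z n := by gcongr; exact le_abs_self R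
    _ ≤ |R| * M := by gcongr

/-- existence of solutions with prescribed (all ones) initial values -/
theorem exists_sol (hb : ∀ i j, 0 ≤ b i j) (hb' : ∀ i, ∃ j, 0 < b i j) (v : ℕ → ℝ)
    (hv : ∀ n, 0 < v n) : ∃ x : ℕ → ℝ, Sol b x ∧ ∀ n, n < L → x n = v n := by
  classical
  -- strong recursion
  let f : (n : ℕ) → ((m : ℕ) → m < n → ℝ) → ℝ := fun n g =>
    if h : n < L then v n
    else 1 / S b ((n - L : ℕ) : ZMod k) (fun j => g (n - L + j) (by have := j.2; omega))
  let x : ℕ → ℝ := fun n => Nat.strongRec (motive := fun _ => ℝ) f n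
  have hxeq : ∀ n, x n = f n (fun m _ => x m) := by
    intro n
    show Nat.strongRec (motive := fun _ => ℝ) f n = _
    rw [Nat.strongRec]
  have hx0 : ∀ n, n < L → x n = v n := by
    intro n hn
    rw [hxeq]; simp only [f, dif_pos hn]
  have hxs : ∀ n, x (n + L) = 1 / S b (n : ZMod k) (fun j => x (n + j)) := by
    intro n
    rw [hxeq]
    have h : ¬ n + L < L := by omega
    simp only [f, dif_neg h, Nat.add_sub_cancel]
  have hpos : ∀ n, 0 < x n := by
    intro n
    induction n using Nat.strong_induction_on with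
    | _ n ih =>
      by_cases hn : n < L
      · rw [hx0 n hn]; exact hv n
      · push Not at hn
        obtain ⟨m, rfl⟩ := Nat.exists_eq_add_of_le hn
        rw [add_comm L m, hxs m]
        exact one_div_pos.2 (S_pos hb hb' (fun j => ih _ (by have := j.2; omega)))
  refine ⟨x, ⟨hpos, fun n => ?_⟩, hx0⟩
  have hs := S_pos hb hb' (i := (n : ZMod k)) (v := fun j => x (n + j)) (fun j => hpos _)
  rw [hxs n]
  field_simp

end basic

section per

variable {k L : ℕ} [NeZero k] {b : ZMod k → Fin L → ℝ}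

/-- the log-sum-exp map -/
noncomputable def F (b : ZMod k → Fin L → ℝ) (u : ZMod k → ℝ) (i : ZMod k) : ℝ :=
  Real.log (S b (i - L) (fun j => Real.exp (u (i - L + ((j : ℕ) : ZMod k)))))

omit [NeZero k] in
theorem log_S_le (hb : ∀ i j, 0 ≤ b i j) (hb' : ∀ i, ∃ j, 0 < b i j) {i : ZMod k}
    {v w : Fin L → ℝ} {D : ℝ} (h : ∀ j, v j ≤ D + w j) :
    Real.log (S b i (fun j => Real.exp (v j))) ≤ D + Real.log (S b i (fun j => Real.exp (w j))) := by
  have h1 : S b i (fun j => Real.exp (v j)) ≤ Real.exp D * S b i (fun j => Real.exp (w j)) :=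
    S_mono hb (fun j => by rw [← Real.exp_add]; exact Real.exp_le_exp.2 (h j))
  have p1 := S_pos hb hb' (i := i) (v := fun j => Real.exp (v j)) (fun j => Real.exp_pos _)
  have p2 := S_pos hb hb' (i := i) (v := fun j => Real.exp (w j)) (fun j => Real.exp_pos _)
  calc Real.log _ ≤ Real.log (Real.exp D * S b i (fun j => Real.exp (w j))) :=
        Real.log_le_log p1 h1
    _ = _ := by rw [Real.log_mul (Real.exp_pos D).ne' p2.ne', Real.log_exp]

omit [NeZero k] in
theorem abs_log_S (hb : ∀ i j, 0 ≤ b i j) (hb' : ∀ i, ∃ j, 0 < b i j) {i : ZMod k}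
    {v w : Fin L → ℝ} {D : ℝ} (h : ∀ j, |v j - w j| ≤ D) :
    |Real.log (S b i (fun j => Real.exp (v j))) - Real.log (S b i (fun j => Real.exp (w j)))| ≤ D := by
  rw [abs_le]
  constructor
  · have := log_S_le hb hb' (i := i) (v := w) (w := v) (D := D)
      (fun j => by have := (abs_le.1 (h j)).1; linarith)
    linarith
  · have := log_S_le hb hb' (i := i) (v := v) (w := w) (D := D)
      (fun j => by have := (abs_le.1 (h j)).2; linarith)
    linarith

theorem F_lip (hb : ∀ i j, 0 ≤ b i j) (hb' : ∀ i, ∃ j, 0 < b i j) (u v : ZMod k → ℝ) :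
    dist (F b u) (F b v) ≤ dist u v := by
  rw [dist_pi_le_iff dist_nonneg]
  intro i
  rw [Real.dist_eq]
  apply abs_log_S hb hb'
  intro j
  have := dist_le_pi_dist u v (i - L + ((j : ℕ) : ZMod k))
  rwa [Real.dist_eq] at this

/-- the perturbed fixed point problem is solvable -/
theorem exists_fixed (hb : ∀ i j, 0 ≤ b i j) (hb' : ∀ i, ∃ j, 0 < b i j) {s : ℝ} (hs : 0 ≤ s)
    (hs1 : s < 1) : ∃ u : ZMod k → ℝ, ∀ i, u i = -(s * F b u i) := by
  let G : (ZMod k → ℝ) → (ZMod k → ℝ) := fun u i => -(s * F b u i)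
  have hG : ContractingWith ⟨s, hs⟩ G := by
    refine ⟨by exact_mod_cast hs1, LipschitzWith.of_dist_le_mul fun u v => ?_⟩
    rw [dist_pi_le_iff (by positivity)]
    intro i
    have h := dist_le_pi_dist (F b u) (F b v) i
    have h2 := F_lip hb hb' u v
    rw [Real.dist_eq] at h ⊢
    have : -(s * F b u i) - -(s * F b v i) = -(s * (F b u i - F b v i)) := by ring
    rw [this, abs_neg, abs_mul, abs_of_nonneg hs]
    exact mul_le_mul_of_nonneg_left (h.trans h2) hs
  refine ⟨hG.fixedPoint, fun i => ?_⟩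
  have := hG.fixedPoint_isFixedPt
  exact (congrFun this i).symm

theorem bound_fixed (hb : ∀ i j, 0 ≤ b i j) (hb' : ∀ i, ∃ j, 0 < b i j) {s : ℝ} (hs : 0 ≤ s)
    (hs1 : s < 1) {u : ZMod k → ℝ} (hu : ∀ i, u i = -(s * F b u i)) {x : ℕ → ℝ} (hx : Sol b x)
    {R : ℝ} (hR : ∀ n, |Real.log (x n)| ≤ R) : ∀ i, |u i| ≤ 2 * R := by
  have hR0 : 0 ≤ R := (abs_nonneg _).trans (hR 0)
  have key : ∀ m n : ℕ, m * L ≤ n →
      |u (n : ZMod k) - Real.log (x n)| ≤ R + s ^ m * ‖u‖ := by
    intro m
    induction m with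
    | zero =>
      intro n _
      have h1 : |u (n : ZMod k)| ≤ ‖u‖ := by
        rw [← Real.norm_eq_abs]; exact norm_le_pi_norm u _
      calc |u (n : ZMod k) - Real.log (x n)| ≤ |u (n : ZMod k)| + |Real.log (x n)| := abs_sub _ _
        _ ≤ ‖u‖ + R := add_le_add h1 (hR n)
        _ = _ := by ring
    | succ m ih =>
      intro n hn
      have hn' : L ≤ n := by nlinarith
      obtain ⟨q, rfl⟩ := Nat.exists_eq_add_of_le hn'
      rw [add_comm L q] at hn ⊢
      have hq : m * L ≤ q := by nlinarith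
      have e1 : u ((q + L : ℕ) : ZMod k) =
          -(s * Real.log (S b (q : ZMod k) (fun j => Real.exp (u ((q : ZMod k) + ((j : ℕ) : ZMod k)))))) := by
        rw [hu]
        unfold F
        have : (((q + L : ℕ) : ZMod k) - L) = (q : ZMod k) := by push_cast; ring
        rw [this]
      have hSx := hx.2 q
      have sp := S_pos hb hb' (i := (q : ZMod k)) (v := fun j => x (q + j)) (fun j => hx.1 _)
      have e2 : Real.log (x (q + L)) = -Real.log (S b (q : ZMod k) (fun j => Real.exp (Real.log (x (q + j))))) := by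
        have h1 : (fun j : Fin L => Real.exp (Real.log (x (q + j)))) = fun j : Fin L => x (q + j) := by
          funext j; rw [Real.exp_log (hx.1 _)]
        rw [h1, ← Real.log_inv]
        congr 1
        exact eq_inv_of_mul_eq_one_left hSx
      have h3 := abs_log_S hb hb' (i := (q : ZMod k)) (v := fun j => u ((q : ZMod k) + ((j : ℕ) : ZMod k)))
        (w := fun j => Real.log (x (q + j))) (D := R + s ^ m * ‖u‖) (fun j => by
          have := ih (q + j) (by omega)
          push_cast at this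
          exact this)
      have h4 := hR (q + L)
      rw [e1, e2]
      rw [e2, abs_neg] at h4
      set a := Real.log (S b (q : ZMod k) (fun j => Real.exp (u ((q : ZMod k) + ((j : ℕ) : ZMod k)))))
      set c := Real.log (S b (q : ZMod k) (fun j => Real.exp (Real.log (x (q + j)))))
      have : -(s * a) - -c = -(s * (a - c)) + (1 - s) * c := by ring
      rw [this]
      calc |-(s * (a - c)) + (1 - s) * c| ≤ |-(s * (a - c))| + |(1 - s) * c| := abs_add_le _ _
        _ = s * |a - c| + (1 - s) * |c| := by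
            rw [abs_neg, abs_mul, abs_mul, abs_of_nonneg hs, abs_of_nonneg (by linarith : 0 ≤ 1 - s)]
        _ ≤ s * (R + s ^ m * ‖u‖) + (1 - s) * R := by
            have : 0 ≤ 1 - s := by linarith
            gcongr
        _ = _ := by ring
  intro i
  have h : ∀ m : ℕ, |u i| ≤ 2 * R + s ^ m * ‖u‖ := by
    intro m
    have h1 := key m (i.val + k * (m * L)) (by
      have : 1 ≤ k := Nat.one_le_iff_ne_zero.2 (NeZero.ne k)
      nlinarith [Nat.zero_le i.val, Nat.mul_le_mul this (le_refl (m * L))])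
    have h2 : ((i.val + k * (m * L) : ℕ) : ZMod k) = i := by
      push_cast
      rw [ZMod.natCast_self, zero_mul, add_zero, ZMod.natCast_zmod_val]
    rw [h2] at h1
    have h3 := hR (i.val + k * (m * L))
    calc |u i| = |(u i - Real.log (x (i.val + k * (m * L)))) + Real.log (x (i.val + k * (m * L)))| := by
          ring_nf
      _ ≤ |u i - Real.log (x (i.val + k * (m * L)))| + |Real.log (x (i.val + k * (m * L)))| :=
          abs_add_le _ _
      _ ≤ _ := by linarith
  have ht : Tendsto (fun m : ℕ => 2 * R + s ^ m * ‖u‖) atTop (𝓝 (2 * R + 0 * ‖u‖)) :=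
    ((tendsto_pow_atTop_nhds_zero_of_lt_one hs hs1).mul_const _).const_add _
  have := ge_of_tendsto' ht h
  simpa using this

theorem F_cont (hb : ∀ i j, 0 ≤ b i j) (hb' : ∀ i, ∃ j, 0 < b i j) : Continuous (F b) := by
  apply LipschitzWith.continuous (K := 1)
  exact LipschitzWith.of_dist_le_mul fun u v => by
    simpa using F_lip hb hb' u v

/-- a bounded positive solution forces a positive solution of period `k` -/
theorem exists_cyc (hb : ∀ i j, 0 ≤ b i j) (hb' : ∀ i, ∃ j, 0 < b i j)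
    {x : ℕ → ℝ} (hx : Sol b x) (hM : ∃ M, ∀ n, x n ≤ M) : ∃ y, Cyc b y := by
  obtain ⟨M, hM⟩ := hM
  -- lower bound
  have hMpos : 0 < M := lt_of_lt_of_le (hx.1 0) (hM 0)
  obtain ⟨C, hC0, hC⟩ : ∃ C : ℝ, 0 < C ∧ ∀ i : ZMod k, S b i (fun _ => 1) ≤ C := by
    refine ⟨∑ i : ZMod k, S b i (fun _ => 1), ?_, fun i => ?_⟩
    · exact Finset.sum_pos (fun i _ => S_pos hb hb' (fun _ => one_pos)) ⟨0, Finset.mem_univ _⟩
    · exact Finset.single_le_sum (f := fun i => S b i (fun _ => 1))
        (fun i _ => (S_pos hb hb' (fun _ => one_pos)).le) (Finset.mem_univ i)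
  have hlow : ∀ n, 1 / (M * C) ≤ x (n + L) := by
    intro n
    have h1 : S b (n : ZMod k) (fun j => x (n + j)) ≤ M * C :=
      (S_mono hb (w := fun _ => 1) (fun j => by simpa using hM _)).trans
        (mul_le_mul_of_nonneg_left (hC _) hMpos.le)
    have sp := S_pos hb hb' (i := (n : ZMod k)) (v := fun j => x (n + j)) (fun j => hx.1 _)
    rw [eq_one_div_of_mul_eq_one_left (hx.2 n)]
    exact one_div_le_one_div_of_le sp h1
  have hR : ∃ R, ∀ n, |Real.log (x n)| ≤ R := by
    refine ⟨(∑ m ∈ Finset.range L, |Real.log (x m)|) + |Real.log M| + |Real.log (1 / (M * C))|,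
      fun n => ?_⟩
    have p1 : 0 ≤ ∑ m ∈ Finset.range L, |Real.log (x m)| :=
      Finset.sum_nonneg fun _ _ => abs_nonneg _
    by_cases hn : n < L
    · have := Finset.single_le_sum (f := fun m => |Real.log (x m)|) (fun _ _ => abs_nonneg _)
        (Finset.mem_range.2 hn)
      have a1 := abs_nonneg (Real.log M)
      have a2 := abs_nonneg (Real.log (1 / (M * C)))
      linarith
    · push Not at hn
      obtain ⟨m, rfl⟩ := Nat.exists_eq_add_of_le hn
      rw [add_comm L m]
      have a := hlow m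
      have h1 : Real.log (1 / (M * C)) ≤ Real.log (x (m + L)) :=
        Real.log_le_log (by positivity) a
      have h2 : Real.log (x (m + L)) ≤ Real.log M := Real.log_le_log (hx.1 _) (hM _)
      rw [abs_le]
      have b1 := abs_nonneg (Real.log M)
      have b2 := abs_nonneg (Real.log (1 / (M * C)))
      have b3 := neg_abs_le (Real.log (1 / (M * C)))
      have b4 := le_abs_self (Real.log M)
      constructor <;> linarith
  obtain ⟨R, hR⟩ := hR
  have hR0 : 0 ≤ R := (abs_nonneg _).trans (hR 0)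
  set s : ℕ → ℝ := fun m => 1 - 1 / ((m : ℝ) + 1) with hs
  have hs0 : ∀ m, 0 ≤ s m := by
    intro m
    simp only [hs, sub_nonneg]
    rw [div_le_one (by positivity)]
    linarith [(Nat.cast_nonneg m : (0 : ℝ) ≤ m)]
  have hs1 : ∀ m, s m < 1 := by
    intro m
    simp only [hs]
    have : (0 : ℝ) < 1 / ((m : ℝ) + 1) := by positivity
    linarith
  have hslim : Tendsto s atTop (𝓝 1) := by
    have := (tendsto_one_div_add_atTop_nhds_zero_nat (𝕜 := ℝ)).const_sub 1
    simpa [hs] using this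
  choose u hu using fun m => exists_fixed (k := k) (b := b) hb hb' (hs0 m) (hs1 m)
  have hub : ∀ m, u m ∈ Metric.closedBall (0 : ZMod k → ℝ) (2 * R) := by
    intro m
    rw [mem_closedBall_zero_iff, pi_norm_le_iff_of_nonneg (by positivity)]
    intro i
    rw [Real.norm_eq_abs]
    exact bound_fixed hb hb' (hs0 m) (hs1 m) (hu m) hx hR i
  obtain ⟨w, -, φ, hφ, hw⟩ := (isCompact_closedBall (0 : ZMod k → ℝ) (2 * R)).tendsto_subseq hub
  have hlim : ∀ i, w i = -(1 * F b w i) := by
    intro i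
    have t1 : Tendsto (fun m => u (φ m) i) atTop (𝓝 (w i)) := (tendsto_pi_nhds.1 hw) i
    have t2 : Tendsto (fun m => F b (u (φ m)) i) atTop (𝓝 (F b w i)) :=
      (tendsto_pi_nhds.1 (((F_cont hb hb').tendsto w).comp hw)) i
    have t3 : Tendsto (fun m => -(s (φ m) * F b (u (φ m)) i)) atTop (𝓝 (-(1 * F b w i))) :=
      ((hslim.comp hφ.tendsto_atTop).mul t2).neg
    have t4 : (fun m => u (φ m) i) = fun m => -(s (φ m) * F b (u (φ m)) i) := by
      funext m; exact hu (φ m) i
    rw [t4] at t1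
    exact tendsto_nhds_unique t1 t3
  refine ⟨fun i => Real.exp (w i), fun i => Real.exp_pos _, fun i => ?_⟩
  have h := hlim (i + L)
  unfold F at h
  have e : i + (L : ZMod k) - L = i := by ring
  rw [e, one_mul] at h
  have sp := S_pos hb hb' (i := i) (v := fun j => Real.exp (w (i + ((j : ℕ) : ZMod k))))
    (fun j => Real.exp_pos _)
  show Real.exp (w (i + L)) * S b i (fun j => Real.exp (w (i + ((j : ℕ) : ZMod k)))) = 1
  rw [h, Real.exp_neg, Real.exp_log sp]
  exact inv_mul_cancel₀ sp.ne'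

/-- a positive solution of period `k` is a bounded positive solution -/
theorem sol_of_cyc {y : ZMod k → ℝ} (hy : Cyc b y) :
    Sol b (fun n => y (n : ZMod k)) ∧ ∃ M, ∀ n : ℕ, y (n : ZMod k) ≤ M := by
  refine ⟨⟨fun n => hy.1 _, fun n => ?_⟩, ∑ i, y i, fun n => ?_⟩
  · have := hy.2 (n : ZMod k)
    push_cast
    exact this
  · exact Finset.single_le_sum (f := y) (fun i _ => (hy.1 i).le) (Finset.mem_univ _)

/-- **Criterion**: all positive solutions are bounded iff there is a positive solution of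
period `k`; and if one is bounded then all are. -/
theorem criterion (hb : ∀ i j, 0 ≤ b i j) (hb' : ∀ i, ∃ j, 0 < b i j) :
    ((∀ x, Sol b x → ∃ M, ∀ n, x n ≤ M) ↔ ∃ y, Cyc b y) ∧
    ((∃ x, Sol b x ∧ ∃ M, ∀ n, x n ≤ M) → ∀ x, Sol b x → ∃ M, ∀ n, x n ≤ M) := by
  have h2 : (∃ x, Sol b x ∧ ∃ M, ∀ n, x n ≤ M) → ∀ x, Sol b x → ∃ M, ∀ n, x n ≤ M := by
    rintro ⟨z, hz, hz'⟩ x hx
    exact all_bounded hb hb' hx hz hz'
  refine ⟨⟨fun h => ?_, ?_⟩, h2⟩
  · obtain ⟨x, hx, -⟩ := exists_sol hb hb' (fun _ => 1) (fun _ => one_pos)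
    exact exists_cyc hb hb' hx (h x hx)
  · rintro ⟨y, hy⟩
    exact h2 ⟨_, (sol_of_cyc hy).1, (sol_of_cyc hy).2⟩

end per

end Pool.Agent.R331.PerRec
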